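import Pool.Agent.MP_c1891a_nt.H43.Spec
import Pool.Agent.MP_c1891a_nt.H21.BPa

/-
The determinant step: points on a short piece of an analytic arc lie on an algebraic curve.
-/

namespace Pool.Agent.MP_c1891a_nt.H43

open Finset

/-- the derivatives of the monomials along the arc. -/
noncomputable def detD (γ : ℝ → ℝ) {d : ℕ} (i : Fin d × Fin d) (k : ℕ) : ℝ → ℝ :=
  deriv^[k] fun v => γ v ^ (i.1 : ℕ) * v ^ (i.2 : ℕ)

theorem detD_an {γ : ℝ → ℝ} {v : ℝ} (h : AnalyticAt ℝ γ v) {d : ℕ} (i : Fin d × Fin d) (k : ℕ) :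
    AnalyticAt ℝ (detD γ i k) v := by
  refine AnalyticAt.iterated_deriv ?_ k
  exact (h.pow _).mul (analyticAt_id.pow _)

theorem detD_deriv {γ : ℝ → ℝ} {v : ℝ} (h : AnalyticAt ℝ γ v) {d : ℕ} (i : Fin d × Fin d)
    (k : ℕ) : HasDerivAt (detD γ i k) (detD γ i (k + 1) v) v := by
  have := (detD_an h i k).differentiableAt.hasDerivAt
  unfold detD at this ⊢
  rw [Function.iterate_succ']
  exact this

theorem det_bd {γ : ℝ → ℝ} {a b : ℝ} (h : AnalyticOnNhd ℝ γ (Set.Icc a b)) (d n : ℕ) :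
    ∃ M : ℝ, 0 ≤ M ∧ ∀ k ≤ n, ∀ i : Fin d × Fin d, ∀ v ∈ Set.Icc a b, |detD γ i k v| ≤ M := by
  have hc : ContinuousOn (fun v => ∑ k ∈ range (n + 1), ∑ i : Fin d × Fin d, |detD γ i k v|)
      (Set.Icc a b) := by
    refine continuousOn_finsetSum _ fun k _ => continuousOn_finsetSum _ fun i _ => ?_
    exact fun v hv => (detD_an (h v hv) i k).continuousAt.continuousWithinAt.abs
  obtain ⟨M, hM⟩ := isCompact_Icc.exists_bound_of_continuousOn hc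
  refine ⟨max M 0, le_max_right _ _, fun k hk i v hv => ?_⟩
  have h1 := (le_abs_self _).trans (hM v hv)
  have h2 : ∑ i : Fin d × Fin d, |detD γ i k v|
      ≤ ∑ k ∈ range (n + 1), ∑ i : Fin d × Fin d, |detD γ i k v| :=
    Finset.single_le_sum (f := fun k => ∑ i : Fin d × Fin d, |detD γ i k v|)
      (fun k _ => Finset.sum_nonneg fun i _ => abs_nonneg _) (Finset.mem_range.2 (by omega))
  have h3 : |detD γ i k v| ≤ ∑ i : Fin d × Fin d, |detD γ i k v| :=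
    Finset.single_le_sum (f := fun i : Fin d × Fin d => |detD γ i k v|) (fun i _ => abs_nonneg _)
      (Finset.mem_univ i)
  exact h3.trans (h2.trans (h1.trans (le_max_left _ _)))

theorem det_pert {γ : ℝ → ℝ} {a b : ℝ} (h : AnalyticOnNhd ℝ γ (Set.Icc a b)) (d : ℕ) :
    ∃ M₂ : ℝ, 0 ≤ M₂ ∧ ∀ i : Fin d × Fin d, ∀ v ∈ Set.Icc a b, ∀ u τ : ℝ, |u - γ v| ≤ τ →
      τ ≤ 1 → |u ^ (i.1 : ℕ) * v ^ (i.2 : ℕ) - γ v ^ (i.1 : ℕ) * v ^ (i.2 : ℕ)| ≤ M₂ * τ := by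
  obtain ⟨G, hG⟩ := isCompact_Icc.exists_bound_of_continuousOn h.continuousOn
  refine ⟨d * (|G| + 1) ^ d * (|a| + |b| + 1) ^ d, by positivity, fun i v hv u τ hu hτ => ?_⟩
  have h1 : |γ v| ≤ |G| := (hG v hv).trans (le_abs_self _)
  have h2 : |u| ≤ |G| + 1 := by
    have := abs_sub_abs_le_abs_sub u (γ v)
    linarith
  have h3 : |v| ≤ |a| + |b| + 1 := by
    have h4 := hv.1
    have h5 := hv.2
    have := le_abs_self b
    have := neg_abs_le a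
    have := abs_nonneg a
    have := abs_nonneg b
    exact abs_le.2 ⟨by linarith, by linarith⟩
  have hG1 : 1 ≤ |G| + 1 := by have := abs_nonneg G; linarith
  have hv1 : 1 ≤ |a| + |b| + 1 := by
    have := abs_nonneg a
    have := abs_nonneg b
    linarith
  have hτ0 : 0 ≤ τ := (abs_nonneg _).trans hu
  have hi1 := i.1.2
  have hi2 := i.2.2
  have h4 : |u ^ (i.1 : ℕ) - γ v ^ (i.1 : ℕ)| ≤ τ * d * (|G| + 1) ^ d := by
    refine (abs_pow_sub_pow_le _ _ _).trans ?_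
    have h5 : (max |u| |γ v|) ^ ((i.1 : ℕ) - 1) ≤ (|G| + 1) ^ d :=
      (pow_le_pow_left₀ (le_max_of_le_left (abs_nonneg _)) (max_le h2 (by linarith)) _).trans
        (pow_le_pow_right₀ hG1 (by omega))
    have h6 : ((i.1 : ℕ) : ℝ) ≤ d := by exact_mod_cast hi1.le
    gcongr
  have h7 : |v ^ (i.2 : ℕ)| ≤ (|a| + |b| + 1) ^ d := by
    rw [abs_pow]
    exact (pow_le_pow_left₀ (abs_nonneg _) h3 _).trans (pow_le_pow_right₀ hv1 hi2.le)
  rw [← sub_mul, abs_mul]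
  calc _ ≤ τ * d * (|G| + 1) ^ d * (|a| + |b| + 1) ^ d := by gcongr
    _ = _ := by ring

theorem det_small {γ : ℝ → ℝ} {a b : ℝ} (h : AnalyticOnNhd ℝ γ (Set.Icc a b)) (d : ℕ)
    (M M₂ : ℝ) (hM0 : 0 ≤ M) (hM₂0 : 0 ≤ M₂)
    (hM : ∀ k ≤ d * d, ∀ i : Fin d × Fin d, ∀ v ∈ Set.Icc a b, |detD γ i k v| ≤ M)
    (ℓ τ x : ℝ) (hℓ0 : 0 < ℓ) (hℓ1 : ℓ ≤ 1) (hτ : τ ≤ ℓ ^ (d * d)) (hx : x ∈ Set.Icc a b)
    (u v : Fin d × Fin d → ℝ) (hv : ∀ r, v r ∈ Set.Icc a b) (hvx : ∀ r, |v r - x| ≤ ℓ)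
    (hu : ∀ (i : Fin d × Fin d) r, |u r ^ (i.1 : ℕ) * v r ^ (i.2 : ℕ)
      - γ (v r) ^ (i.1 : ℕ) * v r ^ (i.2 : ℕ)| ≤ M₂ * τ) :
    |(Matrix.of fun (i : Fin d × Fin d) r => u r ^ (i.1 : ℕ) * v r ^ (i.2 : ℕ)).det|
      ≤ ℓ ^ (d * d * (d * d - 1) / 2)
        * ((d * d).factorial * (((d * d : ℕ) + 1) * M + M₂) ^ (d * d)) := by
  have hρ : 1 ≤ ℓ⁻¹ := one_le_inv₀ hℓ0 |>.2 hℓ1
  have key := Pool.Agent.MP_089fcb_co.H21.det_bound (n := Fin d × Fin d) (d * d) (by simp) ℓ⁻¹ hρ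
    (fun i m => detD γ i m x / (m.factorial : ℝ)) (fun r => v r - x)
    (Matrix.of fun (i : Fin d × Fin d) r => u r ^ (i.1 : ℕ) * v r ^ (i.2 : ℕ)
      - ∑ m ∈ range (d * d), detD γ i m x / (m.factorial : ℝ) * (v r - x) ^ m)
    (Matrix.of fun (i : Fin d × Fin d) r => u r ^ (i.1 : ℕ) * v r ^ (i.2 : ℕ))
    (Matrix.of fun _ _ => ((d * d : ℕ) + 1) * M + M₂)
    (by
      intro i r
      simp only [Matrix.of_apply]
      ring)
    (by
      intro i r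
      simp only [Matrix.of_apply]
      have h1 : ∀ m ∈ range (d * d),
          ℓ⁻¹ ^ m * |detD γ i m x / (m.factorial : ℝ) * (v r - x) ^ m| ≤ M := by
        intro m hm
        have h2 := hM m (Finset.mem_range.1 hm).le i x hx
        have h3 : (1 : ℝ) ≤ m.factorial := by exact_mod_cast m.factorial_pos
        have h4 : |detD γ i m x / (m.factorial : ℝ)| ≤ M := by
          rw [abs_div, Nat.abs_cast]
          exact (div_le_self (abs_nonneg _) h3).trans h2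
        have h5 : |(v r - x) ^ m| ≤ ℓ ^ m := by
          rw [abs_pow]
          exact pow_le_pow_left₀ (abs_nonneg _) (hvx r) m
        rw [abs_mul]
        calc _ ≤ ℓ⁻¹ ^ m * (M * ℓ ^ m) := by gcongr
          _ = M := by
            rw [inv_pow]
            field_simp
      have h6 := Finset.sum_le_card_nsmul _ _ _ h1
      rw [Finset.card_range, nsmul_eq_mul] at h6
      have h7 := H91.bpa_taylor _ Set.ordConnected_Icc M x hx (d * d) (detD γ i)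
        (fun k t ht => detD_deriv (h t ht) i k) (hM (d * d) le_rfl i) (v r) (hv r)
      have h8 : |v r - x| ^ (d * d) ≤ ℓ ^ (d * d) :=
        pow_le_pow_left₀ (abs_nonneg _) (hvx r) _
      have h9 : |u r ^ (i.1 : ℕ) * v r ^ (i.2 : ℕ)
          - ∑ m ∈ range (d * d), detD γ i m x / (m.factorial : ℝ) * (v r - x) ^ m|
          ≤ (M + M₂) * ℓ ^ (d * d) := by
        have e : detD γ i 0 (v r) = γ (v r) ^ (i.1 : ℕ) * v r ^ (i.2 : ℕ) := rfl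
        rw [e] at h7
        have h10 := abs_sub_le (u r ^ (i.1 : ℕ) * v r ^ (i.2 : ℕ))
          (γ (v r) ^ (i.1 : ℕ) * v r ^ (i.2 : ℕ))
          (∑ m ∈ range (d * d), detD γ i m x / (m.factorial : ℝ) * (v r - x) ^ m)
        have h11 := hu i r
        have h12 := mul_le_mul_of_nonneg_left h8 hM0
        have h13 := mul_le_mul_of_nonneg_left hτ hM₂0
        linarith
      have h14 : ℓ⁻¹ ^ (d * d) * |u r ^ (i.1 : ℕ) * v r ^ (i.2 : ℕ)
          - ∑ m ∈ range (d * d), detD γ i m x / (m.factorial : ℝ) * (v r - x) ^ m|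
          ≤ M + M₂ := by
        calc _ ≤ ℓ⁻¹ ^ (d * d) * ((M + M₂) * ℓ ^ (d * d)) := by gcongr
          _ = M + M₂ := by
            rw [inv_pow]
            field_simp
      linarith)
  simp only [Matrix.of_apply, Finset.prod_const, Finset.card_univ, Fintype.card_prod,
    Fintype.card_fin, Finset.sum_const, Fintype.card_perm, nsmul_eq_mul] at key
  have e : ℓ ^ (d * d * (d * d - 1) / 2) * ℓ⁻¹ ^ (d * d * (d * d - 1) / 2) = 1 := by
    rw [← mul_pow, mul_inv_cancel₀ hℓ0.ne', one_pow]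
  calc _ = ℓ ^ (d * d * (d * d - 1) / 2) * (ℓ⁻¹ ^ (d * d * (d * d - 1) / 2)
        * |(Matrix.of fun (i : Fin d × Fin d) r => u r ^ (i.1 : ℕ) * v r ^ (i.2 : ℕ)).det|) := by
        rw [← mul_assoc, e, one_mul]
    _ ≤ _ := mul_le_mul_of_nonneg_left key (by positivity)

theorem det_expo (d : ℕ) :
    ∑ i : Fin d × Fin d, ((i.1 : ℕ) + (i.2 : ℕ)) = d * d * (d - 1) := by
  have h1 : (∑ i : Fin d, (i : ℕ)) * 2 = d * (d - 1) := by
    rw [Fin.sum_univ_eq_sum_range (fun i => i) d]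
    exact Finset.sum_range_id_mul_two d
  rw [Fintype.sum_prod_type]
  simp only [Finset.sum_add_distrib, Finset.sum_const, Finset.card_univ, Fintype.card_fin,
    smul_eq_mul]
  rw [← Finset.mul_sum, mul_assoc, ← h1]
  ring

theorem det_int (d : ℕ) (N : ℝ) (hN : 0 < N) (m n : Fin d × Fin d → ℤ) (B : ℝ)
    (hB : |(Matrix.of fun (i : Fin d × Fin d) r =>
      ((m r : ℝ) / N) ^ (i.1 : ℕ) * ((n r : ℝ) / N) ^ (i.2 : ℕ)).det| ≤ B)
    (hs : N ^ (d * d * (d - 1)) * B < 1) :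
    (Matrix.of fun (i : Fin d × Fin d) r =>
      ((m r : ℝ) / N) ^ (i.1 : ℕ) * ((n r : ℝ) / N) ^ (i.2 : ℕ)).det = 0 := by
  have e1 : (Matrix.of fun (i : Fin d × Fin d) r => (m r : ℝ) ^ (i.1 : ℕ) * (n r : ℝ) ^ (i.2 : ℕ))
      = Matrix.of fun (i : Fin d × Fin d) r => N ^ ((i.1 : ℕ) + (i.2 : ℕ))
        * (Matrix.of fun (i : Fin d × Fin d) r =>
          ((m r : ℝ) / N) ^ (i.1 : ℕ) * ((n r : ℝ) / N) ^ (i.2 : ℕ)) i r := by
    ext i r
    simp only [Matrix.of_apply, div_pow, pow_add]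
    field_simp
  have e2 : (Matrix.of fun (i : Fin d × Fin d) r =>
      (m r : ℝ) ^ (i.1 : ℕ) * (n r : ℝ) ^ (i.2 : ℕ)).det
      = N ^ (d * d * (d - 1)) * (Matrix.of fun (i : Fin d × Fin d) r =>
          ((m r : ℝ) / N) ^ (i.1 : ℕ) * ((n r : ℝ) / N) ^ (i.2 : ℕ)).det := by
    rw [e1, Matrix.det_mul_column, Finset.prod_pow_eq_pow_sum, det_expo]
  have e3 : (Matrix.of fun (i : Fin d × Fin d) r =>
      (m r : ℝ) ^ (i.1 : ℕ) * (n r : ℝ) ^ (i.2 : ℕ)).det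
      = ((Matrix.of fun (i : Fin d × Fin d) r => m r ^ (i.1 : ℕ) * n r ^ (i.2 : ℕ)).det : ℤ) := by
    rw [Int.cast_det]
    congr 1
    ext i r
    simp
  have hp : 0 < N ^ (d * d * (d - 1)) := by positivity
  have h5 : |(((Matrix.of fun (i : Fin d × Fin d) r =>
      m r ^ (i.1 : ℕ) * n r ^ (i.2 : ℕ)).det : ℤ) : ℝ)| < 1 := by
    rw [← e3, e2, abs_mul, abs_of_pos hp]
    exact lt_of_le_of_lt (mul_le_mul_of_nonneg_left hB hp.le) hs
  have h6 : (Matrix.of fun (i : Fin d × Fin d) r => m r ^ (i.1 : ℕ) * n r ^ (i.2 : ℕ)).det = 0 := by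
    have : |(Matrix.of fun (i : Fin d × Fin d) r =>
      m r ^ (i.1 : ℕ) * n r ^ (i.2 : ℕ)).det| < 1 := by exact_mod_cast h5
    exact Int.abs_lt_one_iff.1 this
  rw [h6, e2, Int.cast_zero] at e3
  exact (mul_eq_zero.1 e3).resolve_left hp.ne'

theorem det_rpow (d : ℕ) (hd : 2 ≤ d) (N : ℝ) (hN : 1 ≤ N) :
    N ^ (d * d * (d - 1)) * (N ^ (-(2 / (d + 1)) : ℝ)) ^ (d * d * (d * d - 1) / 2) = 1 := by
  have hN0 : 0 < N := by linarith
  have h1 : 2 * (d * d * (d * d - 1) / 2) = d * d * (d * d - 1) :=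
    Nat.mul_div_cancel' (Nat.even_mul_pred_self (d * d)).two_dvd
  have h2 : 1 ≤ d * d := Nat.mul_pos (by omega) (by omega)
  have h3 : (2 : ℝ) * ((d * d * (d * d - 1) / 2 : ℕ) : ℝ) = d * d * (d * d - 1) := by
    have := congrArg (Nat.cast : ℕ → ℝ) h1
    rw [Nat.cast_mul, Nat.cast_mul (d * d), Nat.cast_sub h2] at this
    push_cast at this ⊢
    linarith
  rw [← Real.rpow_natCast, ← Real.rpow_natCast, ← Real.rpow_mul hN0.le, ← Real.rpow_add hN0]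
  have h4 : ((d * d * (d - 1) : ℕ) : ℝ)
      + -(2 / (d + 1)) * ((d * d * (d * d - 1) / 2 : ℕ) : ℝ) = 0 := by
    have h5 : (d : ℝ) + 1 ≠ 0 := by positivity
    have h6 : ((d * d * (d * d - 1) / 2 : ℕ) : ℝ) = d * d * (d * d - 1) / 2 := by linarith
    rw [h6, Nat.cast_mul, Nat.cast_sub (show 1 ≤ d by omega)]
    push_cast
    field_simp
    ring
  rw [h4, Real.rpow_zero]

theorem sDet : SDet := by
  classical
  intro γ a b h d hd
  obtain ⟨M, hM0, hM⟩ := det_bd h d (d * d)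
  obtain ⟨M₂, hM₂0, hM₂⟩ := det_pert h d
  obtain ⟨W, hW⟩ : ∃ W : ℝ,
      W = (d * d).factorial * (((d * d : ℕ) + 1) * M + M₂) ^ (d * d) := ⟨_, rfl⟩
  have hW0 : 0 ≤ W := by rw [hW]; positivity
  have hW1 : 1 ≤ W + 1 := by linarith
  refine ⟨(W + 1)⁻¹ / 2, d * d + 1, ⌈(W + 1) ^ (d * d)⌉₊, by positivity, ?_⟩
  intro N hN t S hS
  have hNW : (W + 1) ^ (d * d) ≤ N := Nat.ceil_le.1 hN
  have hN1 : (1 : ℝ) ≤ N := (one_le_pow₀ hW1).trans hNW
  have hN0 : (0 : ℝ) < N := by linarith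
  obtain ⟨s, hs⟩ : ∃ s : ℝ, s = (N : ℝ) ^ (-(2 / (d + 1)) : ℝ) := ⟨_, rfl⟩
  have hd3 : (3 : ℝ) ≤ d + 1 := by
    have : (2 : ℝ) ≤ d := by exact_mod_cast hd
    linarith
  have hs0 : 0 < s := by rw [hs]; positivity
  have hs1 : s ≤ 1 := by
    rw [hs]
    exact Real.rpow_le_one_of_one_le_of_nonpos hN1 (neg_nonpos.2 (by positivity))
  have hs2 : (N : ℝ)⁻¹ ≤ s := by
    rw [hs, ← Real.rpow_neg_one]
    refine Real.rpow_le_rpow_of_exponent_le hN1 (neg_le_neg ?_)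
    rw [div_le_one (by linarith)]
    linarith
  rw [← hs] at hS
  have hc1 : (W + 1)⁻¹ ≤ 1 := inv_le_one_of_one_le₀ hW1
  have hc0 : 0 < (W + 1)⁻¹ := by positivity
  have hℓ0 : 0 < (W + 1)⁻¹ * s := by positivity
  have hℓ1 : (W + 1)⁻¹ * s ≤ 1 := mul_le_one₀ hc1 hs0.le hs1
  have hτ : ((N : ℝ) ^ (d * d + 1))⁻¹ ≤ ((W + 1)⁻¹ * s) ^ (d * d) := by
    have e1 : (N : ℝ)⁻¹ ≤ (W + 1)⁻¹ ^ (d * d) := by
      rw [inv_pow]
      exact inv_anti₀ (by positivity) hNW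
    have e2 : (N : ℝ)⁻¹ ^ (d * d) ≤ s ^ (d * d) := pow_le_pow_left₀ (by positivity) hs2 _
    rw [mul_pow, ← inv_pow, pow_succ']
    gcongr
  have hτ1 : ((N : ℝ) ^ (d * d + 1))⁻¹ ≤ 1 := hτ.trans (pow_le_one₀ hℓ0.le hℓ1)
  have hsm : (N : ℝ) ^ (d * d * (d - 1))
      * (((W + 1)⁻¹ * s) ^ (d * d * (d * d - 1) / 2) * W) < 1 := by
    have e1 := det_rpow d hd N hN1
    rw [← hs] at e1
    have e2 : 1 ≤ d * d * (d * d - 1) / 2 := by
      have h4 : 4 ≤ d * d := Nat.mul_le_mul hd hd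
      have h5 : 4 * 3 ≤ d * d * (d * d - 1) := Nat.mul_le_mul h4 (by omega)
      omega
    have e3 : (W + 1)⁻¹ ^ (d * d * (d * d - 1) / 2) ≤ (W + 1)⁻¹ := by
      simpa using pow_le_pow_of_le_one hc0.le hc1 e2
    calc _ = ((N : ℝ) ^ (d * d * (d - 1)) * s ^ (d * d * (d * d - 1) / 2))
          * ((W + 1)⁻¹ ^ (d * d * (d * d - 1) / 2) * W) := by rw [mul_pow]; ring
      _ ≤ 1 * ((W + 1)⁻¹ * W) := by rw [e1]; gcongr
      _ < 1 := by
        rw [one_mul, inv_mul_lt_iff₀ (by linarith)]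
        linarith
  have hdet : ∀ f : Fin d × Fin d → ℤ × ℤ, (∀ r, f r ∈ S) →
      (Matrix.of fun (i : Fin d × Fin d) r =>
        (((f r).1 : ℝ) / N) ^ (i.1 : ℕ) * (((f r).2 : ℝ) / N) ^ (i.2 : ℕ)).det = 0 := by
    intro f hf
    have r₀ : Fin d × Fin d := (⟨0, by omega⟩, ⟨0, by omega⟩)
    refine det_int d N hN0 (fun r => (f r).1) (fun r => (f r).2) _ ?_ hsm
    rw [hW]
    refine det_small h d M M₂ hM0 hM₂0 hM _ _ ((f r₀).2 / N) (hW ▸ hℓ0) (hW ▸ hℓ1) (hW ▸ hτ)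
      (hS _ (hf r₀)).1 _ _ (fun r => (hS _ (hf r)).1) (fun r => ?_)
      (fun i r => hM₂ i _ (hS _ (hf r)).1 _ _ (hS _ (hf r)).2.2 hτ1)
    have h1 := abs_le.1 (hS _ (hf r)).2.1
    have h2 := abs_le.1 (hS _ (hf r₀)).2.1
    rw [← hW]
    exact abs_le.2 ⟨by linarith [h1.1, h2.2], by linarith [h1.2, h2.1]⟩
  have hex : ∃ w₀ : Fin d × Fin d → ℝ, (∀ q : S, ∑ i, w₀ i
      * (((q.1.1 : ℝ) / N) ^ (i.1 : ℕ) * ((q.1.2 : ℝ) / N) ^ (i.2 : ℕ)) = 0) ∧ w₀ ≠ 0 := by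
    by_contra hcon
    push Not at hcon
    obtain ⟨f, -, hf⟩ := Pool.Agent.MP_089fcb_co.H21.exists_minor
      (Matrix.of fun (i : Fin d × Fin d) (q : S) =>
        ((q.1.1 : ℝ) / N) ^ (i.1 : ℕ) * ((q.1.2 : ℝ) / N) ^ (i.2 : ℕ))
      (fun v hv i => congrFun (hcon v hv) i)
    exact hf (hdet (fun r => (f r).1) fun r => (f r).2)
  obtain ⟨w₀, hw₀, hne⟩ := hex
  obtain ⟨i₁, hi₁⟩ := Function.ne_iff.1 hne
  obtain ⟨i₀, -, hi₀⟩ := Finset.exists_max_image univ (fun i => |w₀ i|) ⟨i₁, mem_univ _⟩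
  have hp : 0 < |w₀ i₀| := (abs_pos.2 hi₁).trans_le (hi₀ i₁ (mem_univ _))
  refine ⟨fun i => w₀ i / |w₀ i₀|, ⟨i₀, ?_⟩, fun i => ?_, fun z hz => ?_⟩
  · rw [abs_div, abs_abs, div_self hp.ne']
  · rw [abs_div, abs_abs]
    exact (div_le_one hp).2 (hi₀ i (mem_univ _))
  · have := hw₀ ⟨z, hz⟩
    simp only [div_mul_eq_mul_div]
    rw [← Finset.sum_div, this, zero_div]

end Pool.Agent.MP_c1891a_nt.H43
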